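import Mathlib

set_option autoImplicit false

namespace Pool.Agent.H.MP_366529_co
open Set

def XN (v : Fin 31) : ℕ := (49893125569466106890531976895896448493311811426287446058 >>> (6 * v.val)) % 64
def YN (v : Fin 31) : ℕ := (49936824301724623128053062642332773189051313527663536800 >>> (6 * v.val)) % 64
def X (v : Fin 31) : ℤ := (XN v : ℤ) - 32
def Y (v : Fin 31) : ℤ := (YN v : ℤ) - 32
def LL : List (ℕ × ℕ × ℕ × ℕ) := [(42, 32, 42, 25), (42, 32, 39, 35), (42, 32, 35, 37), (32, 42, 39, 35), (32, 42, 29, 42), (32, 42, 27, 40), (22, 42, 29, 42), (22, 42, 22, 39), (22, 42, 24, 35), (22, 32, 22, 39), (22, 32, 25, 29), (22, 32, 29, 27), (32, 22, 35, 22), (32, 22, 25, 29), (32, 22, 37, 24), (42, 22, 35, 22), (42, 22, 42, 25), (42, 22, 40, 29), (35, 22, 37, 24), (42, 25, 40, 29), (39, 35, 35, 37), (29, 42, 27, 40), (22, 39, 24, 35), (25, 29, 29, 27), (34, 27, 29, 27), (34, 27, 37, 24), (34, 27, 32, 32), (37, 29, 37, 24), (37, 29, 40, 29), (37, 29, 32, 32), (35, 34,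 40, 29), (35, 34, 35, 37), (35, 34, 32, 32), (30, 37, 27, 40), (30, 37, 35, 37), (30, 37, 32, 32), (27, 35, 27, 40), (27, 35, 24, 35), (27, 35, 32, 32), (29, 30, 24, 35), (29, 30, 29, 27), (29, 30, 32, 32), (27, 40, 24, 35), (27, 40, 35, 37), (24, 35, 29, 27), (29, 27, 37, 24), (37, 24, 40, 29), (40, 29, 35, 37), (20, 23, 6, 62), (32, 42, 25, 48), (42, 22, 58, 4), (41, 45, 58, 4), (32, 42, 41, 45), (41, 45, 6, 62), (20, 23, 58, 4), (42, 32, 58, 4), (22, 42, 25, 48), (50, 11, 20, 23), (50, 11, 58, 4), (42, 22, 50, 11), (25, 48, 6, 62), (32, 22, 20, 23), (22, 32, 20, 23), (41, 45, 25, 48), (22, 32, 6, 62), (42, 32, 41, 45)]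
def tb (T : ℕ) (v : Fin 31) : Fin 31 := Fin.ofNat 31 ((T >>> (5 * v.val)) % 32)
def th : Equiv.Perm (Fin 31) :=
  ⟨tb 43929544113806133907004980657662866908393901121, tb 44105072568109489301375344049019768160224609285, by decide +kernel, by decide +kernel⟩
def ta : Equiv.Perm (Fin 31) :=
  ⟨tb 44151112808285926476691701664718617496623616160, tb 44151112808285926476691701664718617496623616160, by decide +kernel, by decide +kernel⟩
def cl (v : Fin 31) : Fin 3 := Fin.ofNat 3 ((2992993899608705344 >>> (2 * v.val)) % 4)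
def am (v : ℕ) : ℕ := (160944563215204423389281860274629807022821479368855206731318313979864456767003754786382732851783528835520299163595051699825042475777962263111437705861096440207161709721731403919195312547199116377320299461112007935063259055087004343291471678258787219993685332095745263747425263540512896165406073984 >>> (32 * v)) % 4294967296
def od (n : ℕ) : ℕ := (11699756238377468654814910512673510400846303633 >>> (5 * n)) % 32
def rm (v : ℕ) : ℕ := (160944563215204423389281860274629807022821479368855206731318313979864456767003754786382732851783528835520299163595051699825042475777962263111437705861096440207161709721731403919195312547190823086323851952760660089654002645813146741151817120551950011636200750985837593606985364786534755940087914496 >>> (32 * v)) % 4294967296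
def R0 : SimpleGraph (Fin 31) where
  Adj a b := (rm a).testBit b = true
  symm := ⟨by decide +kernel⟩
  loopless := ⟨by decide +kernel⟩
def G0 : SimpleGraph (Fin 31) where
  Adj a b := (am a).testBit b = true
  symm := ⟨by decide +kernel⟩
  loopless := ⟨by decide +kernel⟩
def vv (i : ZMod 6) : Fin 31 := Fin.castLE (by norm_num) (show Fin 6 from i)

instance : DecidableRel R0.Adj := fun a b => inferInstanceAs (Decidable ((rm a).testBit b = true))
instance : DecidableRel G0.Adj := fun a b => inferInstanceAs (Decidable ((am a).testBit b = true))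

theorem adj_LL : ∀ a b, G0.Adj a b → (XN a, YN a, XN b, YN b) ∈ LL ∨ (XN b, YN b, XN a, YN a) ∈ LL := by
  decide +kernel

noncomputable def L (a b : ℝ) : ℂ := ⟨(2 * a + b) / 20, √3 * b / 20⟩
noncomputable def pp (v : Fin 31) : ℂ := L (X v) (Y v)

theorem L_inj {a b c d : ℝ} (h : L a b = L c d) : a = c ∧ b = d := by
  have h1 := congrArg Complex.re h
  have h2 := congrArg Complex.im h
  simp only [L] at h1 h2
  have h3 : (0 : ℝ) < √3 := by positivity
  have h4 : b = d := by
    have : √3 * b = √3 * d := by linarith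
    exact mul_left_cancel₀ h3.ne' this
  exact ⟨by linarith, h4⟩

theorem L_seg {a b c d : ℝ} {z : ℂ} (h : z ∈ openSegment ℝ (L a b) (L c d)) :
    ∃ s t : ℝ, 0 < s ∧ 0 < t ∧ s + t = 1 ∧ z = L (s * a + t * c) (s * b + t * d) := by
  obtain ⟨s, t, hs, ht, hst, rfl⟩ := h
  refine ⟨s, t, hs, ht, hst, ?_⟩
  apply Complex.ext <;> simp [L] <;> ring

theorem L_sq (a b : ℝ) : ‖L a b‖ ^ 2 = (a ^ 2 + a * b + b ^ 2) / 100 := by
  rw [Complex.sq_norm, Complex.normSq_apply]
  simp only [L]
  have : √3 * √3 = 3 := Real.mul_self_sqrt (by norm_num)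
  linear_combination (b ^ 2 / 400) * this

def sp1 (xa ya xb yb xc yc xd yd u u' w w' : ℕ) : Bool :=
  Nat.ble (u * xa + w * ya + (u' * xc + w' * yc)) (u * xc + w * yc + (u' * xa + w' * ya)) &&
  Nat.ble (u * xa + w * ya + (u' * xd + w' * yd)) (u * xd + w * yd + (u' * xa + w' * ya)) &&
  Nat.ble (u * xb + w * yb + (u' * xc + w' * yc)) (u * xc + w * yc + (u' * xb + w' * yb)) &&
  Nat.ble (u * xb + w * yb + (u' * xd + w' * yd)) (u * xd + w * yd + (u' * xb + w' * yb)) &&
  Nat.ble (u * (xa + xb) + w * (ya + yb) + (u' * (xc + xd) + w' * (yc + yd)) + 1)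
    (u * (xc + xd) + w * (yc + yd) + (u' * (xa + xb) + w' * (ya + yb)))

noncomputable def LN (x y : ℕ) : ℂ := L ((x : ℝ) - 32) ((y : ℝ) - 32)

theorem pp_LN (v : Fin 31) : pp v = LN (XN v) (YN v) := by
  simp [pp, LN, X, Y]

theorem sp1_spec {xa ya xb yb xc yc xd yd u u' w w' : ℕ}
    (h : sp1 xa ya xb yb xc yc xd yd u u' w w' = true) :
    Disjoint (openSegment ℝ (LN xa ya) (LN xb yb)) (openSegment ℝ (LN xc yc) (LN xd yd)) := by
  simp only [sp1, Bool.and_eq_true, Nat.ble_eq] at h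
  obtain ⟨⟨⟨⟨h1, h2⟩, h3⟩, h4⟩, h5⟩ := h
  rw [Set.disjoint_left]
  intro z hz hz'
  obtain ⟨s, t, hs, ht, hst, e⟩ := L_seg hz
  obtain ⟨s', t', hs', ht', hst', e'⟩ := L_seg hz'
  obtain ⟨e1, e2⟩ := L_inj (e.symm.trans e')
  have c1 := (Nat.cast_le (α := ℝ)).2 h1
  have c2 := (Nat.cast_le (α := ℝ)).2 h2
  have c3 := (Nat.cast_le (α := ℝ)).2 h3
  have c4 := (Nat.cast_le (α := ℝ)).2 h4
  have c5 := (Nat.cast_le (α := ℝ)).2 h5
  push_cast at c1 c2 c3 c4 c5
  obtain ⟨fa, ha⟩ : ∃ f : ℝ, f = ((u : ℝ) - u') * xa + ((w : ℝ) - w') * ya := ⟨_, rfl⟩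
  obtain ⟨fb, hb⟩ : ∃ f : ℝ, f = ((u : ℝ) - u') * xb + ((w : ℝ) - w') * yb := ⟨_, rfl⟩
  obtain ⟨fc, hc⟩ : ∃ f : ℝ, f = ((u : ℝ) - u') * xc + ((w : ℝ) - w') * yc := ⟨_, rfl⟩
  obtain ⟨fd, hd⟩ : ∃ f : ℝ, f = ((u : ℝ) - u') * xd + ((w : ℝ) - w') * yd := ⟨_, rfl⟩
  have g1 : fa ≤ fc := by rw [ha, hc]; linear_combination c1
  have g2 : fa ≤ fd := by rw [ha, hd]; linear_combination c2
  have g3 : fb ≤ fc := by rw [hb, hc]; linear_combination c3
  have g4 : fb ≤ fd := by rw [hb, hd]; linear_combination c4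
  have g5 : fa + fb + 1 ≤ fc + fd := by rw [ha, hb, hc, hd]; linear_combination c5
  have e3 : s * fa + t * fb = s' * fc + t' * fd := by
    rw [ha, hb, hc, hd]
    linear_combination ((u : ℝ) - u') * e1 + ((w : ℝ) - w') * e2 +
      32 * ((u : ℝ) - u' + w - w') * (hst - hst')
  have k : s * s' * (fc - fa) + s * t' * (fd - fa) + t * s' * (fc - fb) + t * t' * (fd - fb) = 0 := by
    have a1 : s = 1 - t := by linarith
    have a2 : s' = 1 - t' := by linarith
    rw [a1, a2] at e3 ⊢
    linear_combination (-1 : ℝ) * e3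
  have p1 := mul_nonneg (mul_pos hs hs').le (sub_nonneg.2 g1)
  have p2 := mul_nonneg (mul_pos hs ht').le (sub_nonneg.2 g2)
  have p3 := mul_nonneg (mul_pos ht hs').le (sub_nonneg.2 g3)
  have p4 := mul_nonneg (mul_pos ht ht').le (sub_nonneg.2 g4)
  have q1 : fc - fa = 0 := (mul_eq_zero.1 (by linarith : s * s' * (fc - fa) = 0)).resolve_left
    (mul_pos hs hs').ne'
  have q4 : fd - fb = 0 := (mul_eq_zero.1 (by linarith : t * t' * (fd - fb) = 0)).resolve_left
    (mul_pos ht ht').ne'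
  linarith

def sep (xa ya xb yb xc yc xd yd : ℕ) : Bool :=
  sp1 xa ya xb yb xc yc xd yd yb ya xa xb || sp1 xa ya xb yb xc yc xd yd ya yb xb xa ||
  sp1 xa ya xb yb xc yc xd yd yd yc xc xd || sp1 xa ya xb yb xc yc xd yd yc yd xd xc ||
  sp1 xa ya xb yb xc yc xd yd xb xa yb ya || sp1 xa ya xb yb xc yc xd yd xa xb ya yb

theorem sep_spec {xa ya xb yb xc yc xd yd : ℕ} (h : sep xa ya xb yb xc yc xd yd = true) :
    Disjoint (openSegment ℝ (LN xa ya) (LN xb yb)) (openSegment ℝ (LN xc yc) (LN xd yd)) := by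
  simp only [sep, Bool.or_eq_true] at h
  rcases h with ((((h | h) | h) | h) | h) | h <;> exact sp1_spec h

theorem sepE : ∀ e ∈ LL, ∀ f ∈ LL,
    sep e.1 e.2.1 e.2.2.1 e.2.2.2 f.1 f.2.1 f.2.2.1 f.2.2.2 = true ∨ e = f := by
  decide +kernel

theorem sepV : ∀ e ∈ LL, ∀ x,
    sep e.1 e.2.1 e.2.2.1 e.2.2.2 (XN x) (YN x) (XN x) (YN x) = true := by decide +kernel

theorem XY_inj : ∀ a b, X a = X b → Y a = Y b → a = b := by decide +kernel

theorem pp_inj : Function.Injective pp := by
  intro a b h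
  obtain ⟨h1, h2⟩ := L_inj h
  exact XY_inj a b (by exact_mod_cast h1) (by exact_mod_cast h2)

theorem adj_mem {a b : Fin 31} (h : G0.Adj a b) : ∃ c d, (XN c, YN c, XN d, YN d) ∈ LL ∧
    s(a, b) = s(c, d) ∧ openSegment ℝ (pp a) (pp b) = openSegment ℝ (pp c) (pp d) := by
  rcases adj_LL a b h with h | h
  · exact ⟨_, _, h, rfl, rfl⟩
  · exact ⟨_, _, h, Sym2.eq_swap, openSegment_symm _ _ _⟩

theorem draw1 (a b x : Fin 31) (h : G0.Adj a b) : pp x ∉ openSegment ℝ (pp a) (pp b) := by
  obtain ⟨c, d, he, -, h2⟩ := adj_mem h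
  rw [h2, pp_LN, pp_LN, pp_LN]
  intro hx
  exact Set.disjoint_left.1 (sep_spec (sepV _ he x)) hx (by simp)

theorem draw2 (a b c d : Fin 31) (h : G0.Adj a b) (h' : G0.Adj c d) (hne : s(a, b) ≠ s(c, d)) :
    Disjoint (openSegment ℝ (pp a) (pp b)) (openSegment ℝ (pp c) (pp d)) := by
  obtain ⟨a', b', he, h1, h2⟩ := adj_mem h
  obtain ⟨c', d', hf, h3, h4⟩ := adj_mem h'
  rw [h2, h4]
  rcases sepE _ he _ hf with h5 | h5
  · simp only [pp_LN]
    exact sep_spec h5
  · simp only [Prod.mk.injEq] at h5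
    have e1 : a' = c' := pp_inj (by rw [pp_LN, pp_LN, h5.1, h5.2.1])
    have e2 : b' = d' := pp_inj (by rw [pp_LN, pp_LN, h5.2.2.1, h5.2.2.2])
    exact absurd (by rw [h1, h3, e1, e2]) hne

def Q (v : Fin 31) : ℤ := X v ^ 2 + X v * Y v + Y v ^ 2

theorem pp_sq (v : Fin 31) : ‖pp v‖ ^ 2 = (Q v : ℝ) / 100 := by
  unfold pp Q; rw [L_sq]; push_cast; ring

theorem QR : ∀ a b, R0.Adj a b → Q a ≤ 100 := by decide +kernel
theorem QS : ∀ a b, G0.Adj a b → ¬ R0.Adj a b → 100 ≤ Q a := by decide +kernel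
theorem QV : ∀ a, Q a = 100 ↔ ∃ i, vv i = a := by decide +kernel

def out1 (a b : Fin 31) (u w : ℤ) : Bool :=
  decide (20 ≤ u * X a + w * Y a) && decide (20 ≤ u * X b + w * Y b) &&
  decide (40 < u * X a + w * Y a + (u * X b + w * Y b))

theorem outS : ∀ a b, G0.Adj a b → ¬ R0.Adj a b → (out1 a b 2 1 || out1 a b 1 2 || out1 a b (-1) 1 ||
    out1 a b (-2) (-1) || out1 a b (-1) (-2) || out1 a b 1 (-1)) = true := by decide +kernel

theorem out1_spec {a b : Fin 31} {u w : ℤ} (h : out1 a b u w = true) {z : ℂ}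
    (hz : z ∈ openSegment ℝ (pp a) (pp b)) :
    ∃ x y : ℝ, 20 < u * x + w * y ∧ ‖z‖ ^ 2 = (x ^ 2 + x * y + y ^ 2) / 100 := by
  simp only [out1, Bool.and_eq_true, decide_eq_true_eq] at h
  obtain ⟨⟨h1, h2⟩, h3⟩ := h
  obtain ⟨s, t, hs, ht, hst, e⟩ := L_seg hz
  refine ⟨_, _, ?_, e ▸ L_sq _ _⟩
  have g1 : (20 : ℝ) ≤ u * X a + w * Y a := by exact_mod_cast h1
  have g2 : (20 : ℝ) ≤ u * X b + w * Y b := by exact_mod_cast h2
  have g3 : (40 : ℝ) < u * X a + w * Y a + (u * X b + w * Y b) := by exact_mod_cast h3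
  have e3 : (u : ℝ) * (s * X a + t * X b) + w * (s * Y a + t * Y b) =
      20 + (s * (u * X a + w * Y a - 20) + t * (u * X b + w * Y b - 20)) := by
    linear_combination (20 : ℝ) * hst
  rw [e3]
  have p1 := mul_nonneg hs.le (sub_nonneg.2 g1)
  have p2 := mul_nonneg ht.le (sub_nonneg.2 g2)
  rcases g1.eq_or_lt with g | g
  · have := mul_pos ht (sub_pos.2 (by linarith : (20 : ℝ) < u * X b + w * Y b))
    linarith
  · have := mul_pos hs (sub_pos.2 g)
    linarith

theorem outside {a b : Fin 31} (h : G0.Adj a b) (h' : ¬ R0.Adj a b) {z : ℂ}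
    (hz : z ∈ openSegment ℝ (pp a) (pp b)) : 1 < ‖z‖ := by
  have h1 := outS a b h h'
  have h2 : 1 < ‖z‖ ^ 2 := by
    simp only [Bool.or_eq_true] at h1
    rcases h1 with ((((h1 | h1) | h1) | h1) | h1) | h1 <;>
    obtain ⟨x, y, h3, h4⟩ := out1_spec h1 hz <;> rw [h4] <;> push_cast at h3 <;>
    nlinarith [sq_nonneg x, sq_nonneg y, sq_nonneg (x + y)]
  nlinarith [norm_nonneg z]

theorem rot_int : ∀ a b, R0.Adj a b → X (th a) = - Y a ∧ Y (th a) = X a + Y a := by decide +kernel

theorem rot_L (a b : ℝ) :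
    L (-b) (a + b) = Complex.exp (2 * Real.pi * Complex.I / ((6 : ℕ) : ℂ)) * L a b := by
  have e : (2 * Real.pi * Complex.I / ((6 : ℕ) : ℂ)) = ((Real.pi / 3 : ℝ) : ℂ) * Complex.I := by
    push_cast; ring
  have h3 : √3 * √3 = 3 := Real.mul_self_sqrt (by norm_num)
  rw [e]
  apply Complex.ext
  · rw [Complex.mul_re, Complex.exp_ofReal_mul_I_re, Complex.exp_ofReal_mul_I_im,
      Real.cos_pi_div_three, Real.sin_pi_div_three]
    simp only [L]
    linear_combination (b / 40) * h3
  · rw [Complex.mul_im, Complex.exp_ofReal_mul_I_re, Complex.exp_ofReal_mul_I_im,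
      Real.cos_pi_div_three, Real.sin_pi_div_three]
    simp only [L]
    ring

def srch : ℕ → ℕ → Bool := fun n =>
  Nat.rec (motive := fun _ => ℕ → Bool) (fun _ => true)
    (fun k r M =>
      (Nat.beq (am (od k) &&& M) 0 && r (M ||| (1 <<< od k))) ||
      (Nat.beq (am (od k) &&& (M >>> 32)) 0 && r (M ||| (1 <<< (32 + od k)))) ||
      (Nat.beq (am (od k) &&& (M >>> 64)) 0 && r (M ||| (1 <<< (64 + od k))))) n

theorem srch_false : srch 31 0 = false := by decide +kernel

theorem od_lt : ∀ k < 31, od k < 31 := by decide +kernel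

theorem am_adj : ∀ v : Fin 31, ∀ u < 32, (am v).testBit u = true → ∃ h : u < 31, G0.Adj v ⟨u, h⟩ := by
  decide +kernel

theorem srch_true (C : G0.Coloring (Fin 3)) : ∀ n ≤ 31, ∀ M : ℕ,
    (∀ j, M.testBit j = true → ∃ h : j % 32 < 31, (C ⟨j % 32, h⟩).val = j / 32) → srch n M = true := by
  intro n
  induction n with
  | zero => intro _ _ _; rfl
  | succ k ih =>
    intro hk M hM
    have hv := od_lt k (by omega)
    have key : ∀ c : ℕ, (C ⟨od k, hv⟩).val = c →
        (Nat.beq (am (od k) &&& (M >>> (32 * c))) 0 && srch k (M ||| (1 <<< (32 * c + od k)))) = true := by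
      intro c hc
      rw [Bool.and_eq_true]
      constructor
      · rw [Nat.beq_eq]
        apply Nat.eq_of_testBit_eq
        intro u
        rw [Nat.testBit_and, Nat.zero_testBit, Bool.and_eq_false_iff]
        by_contra hn
        push Not at hn
        obtain ⟨h1, h2⟩ := hn
        have h1' : (am (od k)).testBit u = true := by simpa using h1
        have h2' : M.testBit (32 * c + u) = true := by simpa [Nat.testBit_shiftRight] using h2
        have hu : u < 32 := by
          by_contra hu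
          have h5 : am (od k) < 2 ^ 32 := Nat.mod_lt _ (by norm_num)
          rw [Nat.testBit_lt_two_pow (lt_of_lt_of_le h5 (Nat.pow_le_pow_right (by norm_num) (by omega)))] at h1'
          simp at h1'
        obtain ⟨h6, h7⟩ := am_adj ⟨od k, hv⟩ u hu h1'
        obtain ⟨h8, h9⟩ := hM _ h2'
        have e1 : (32 * c + u) % 32 = u := by omega
        have e2 : (32 * c + u) / 32 = c := by omega
        apply C.valid h7
        apply Fin.ext
        rw [hc, ← e2, ← h9]
        congr 2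
        exact Fin.ext e1
      · apply ih (by omega)
        intro j hj
        rw [Nat.testBit_or, Bool.or_eq_true, Nat.one_shiftLeft] at hj
        rcases hj with hj | hj
        · exact hM j hj
        · have : 32 * c + od k = j := by simpa [Nat.testBit_two_pow] using hj
          subst this
          have e1 : (32 * c + od k) % 32 = od k := by omega
          refine ⟨by omega, ?_⟩
          rw [show (32 * c + od k) / 32 = c by omega]
          refine Eq.trans ?_ hc
          congr 2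
          exact Fin.ext e1
    have e : srch (k + 1) M =
      ((Nat.beq (am (od k) &&& M) 0 && srch k (M ||| (1 <<< od k))) ||
      (Nat.beq (am (od k) &&& (M >>> 32)) 0 && srch k (M ||| (1 <<< (32 + od k)))) ||
      (Nat.beq (am (od k) &&& (M >>> 64)) 0 && srch k (M ||| (1 <<< (64 + od k))))) := rfl
    rw [e, Bool.or_eq_true, Bool.or_eq_true]
    have h3 := (C ⟨od k, hv⟩).isLt
    rcases (by omega : (C ⟨od k, hv⟩).val = 0 ∨ (C ⟨od k, hv⟩).val = 1 ∨ (C ⟨od k, hv⟩).val = 2)
      with h | h | h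
    · left; left; simpa using key 0 h
    · left; right; exact key 1 h
    · right; exact key 2 h

theorem nocol : IsEmpty (G0.Coloring (Fin 3)) := by
  constructor
  intro C
  have := srch_true C 31 le_rfl 0 (by simp)
  rw [srch_false] at this
  simp at this

theorem col_ok : ∀ a b, ((G0.Adj a b ∧ ¬ R0.Adj a b) ∨ R0.Adj (ta a) (ta b)) → cl a ≠ cl b := by
  decide +kernel

theorem le0 : ∀ a b, R0.Adj a b → G0.Adj a b := by decide +kernel
theorem th_adj : ∀ a b, R0.Adj (th a) (th b) ↔ R0.Adj a b := by decide +kernel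
theorem th_v : ∀ i, th (vv i) = vv (i + 1) := by decide +kernel
theorem ta_v : ∀ i, ta (vv i) = vv (-i) := by decide +kernel
theorem ta_o : ∀ x, (∀ i, vv i ≠ x) → ta x = x := by decide +kernel
theorem vv_inj : ∀ i j, vv i = vv j → i = j := by decide +kernel
theorem att : ∀ x, (∃ i, vv i = x) ↔ (∃ y, R0.Adj x y) ∧ ∃ y, G0.Adj x y ∧ ¬ R0.Adj x y := by
  decide +kernel

end Pool.Agent.H.MP_366529_co
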